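import Pool.Agent.Helper6.O3.St

/-!
# Project O3 (MP_d49380_lc), module RG: rigidity
-/

set_option autoImplicit false

namespace Pool.Agent.Helper18.O3

open Pool.Agent.Helper6.O3 Filter Topology
open Pool.Agent.Helper99.DF (T TL sq chk Cert ver StVER StTRA StCMP StSND StPR1 StPRC StVP)

/-- Positivity of `T c` from positivity of `T (T c)`. -/
theorem pos_RG {c : ℕ → ℝ} (hI : Inf c) {k : ℕ} (h : 0 < T (T c) k) : 0 < T c k := by
  have h1 : ∀ j, 0 ≤ T c j := fun j => hI 1 j
  have h2 : T (T c) k = T c k ^ 2 - T c (k - 1) * T c (k + 1) := rfl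
  have h3 := mul_nonneg (h1 (k - 1)) (h1 (k + 1))
  have h4 : 0 < T c k ^ 2 := by linarith
  rcases (h1 k).lt_or_eq with h5 | h5
  · exact h5
  · rw [← h5] at h4
    norm_num at h4

theorem hRG (hGL : StGL) (hTL : StTL) (hUS : StUS) : StRG := by
  intro c p q r K N h0 h1 hI hpos hka hr hK hTT
  -- step one
  have step : ∀ k1 : ℕ, 3 ≤ k1 → (∀ k, k1 ≤ k → T (T c) k = K * r ^ k * c k) →
      T (T c) (k1 - 1) = K * r ^ (k1 - 1) * c (k1 - 1) := by
    intro k1 hk1 hP
    have hc : ∀ k, k1 ≤ k → 0 < c k := fun k hk => hpos k (by omega)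
    have hT : ∀ k, k1 ≤ k → 0 < T c k := by
      intro k hk
      apply pos_RG hI
      rw [hP k hk]
      have := hc k hk
      positivity
    obtain ⟨hA, hB⟩ := hTL c r K k1 h0 hr hK hc hT hP
    obtain ⟨hG1, hG2⟩ := hGL c p q r K (max k1 N)
      (fun k hk => hc k ((le_max_left _ _).trans hk))
      (fun k hk => hT k ((le_max_left _ _).trans hk))
      (fun m hm => hka m ((le_max_right _ _).trans hm)) hr hK
      (fun k hk => hP k ((le_max_left _ _).trans hk))
    have hI2 : Inf (T (T c)) := Inf_iter hI 2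
    have h02 : T (T c) 0 = 0 := T_zero0 h0 2
    have hI' : Inf (fun k => K⁻¹ * (r⁻¹) ^ k * T (T c) k) :=
      Inf_scale hI2 h02 (inv_nonneg.2 hK.le) (inv_nonneg.2 hr.le)
    have hrk : ∀ k : ℕ, r ^ k ≠ 0 := fun k => pow_ne_zero k hr.ne'
    have heq : ∀ k, k1 ≤ k → (fun k => K⁻¹ * (r⁻¹) ^ k * T (T c) k) k = c k := by
      intro k hk
      simp only
      rw [hP k hk, inv_pow]
      field_simp
    have hfin := hUS c (fun k => K⁻¹ * (r⁻¹) ^ k * T (T c) k) k1 (by omega) hI hI' heq hA hB hG1 hG2
    rw [← hfin, inv_pow]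
    have := hrk (k1 - 1)
    field_simp
  have all : ∀ j k1 : ℕ, 2 ≤ k1 → max N 2 ≤ k1 + j → ∀ k, k1 ≤ k → T (T c) k = K * r ^ k * c k := by
    intro j
    induction j with
    | zero =>
      intro k1 _ h3 k hk
      exact hTT k (((le_max_left N 2).trans h3).trans hk)
    | succ j ih =>
      intro k1 h2 h3 k hk
      have h4 := ih (k1 + 1) (by omega) (by omega)
      rcases Nat.eq_or_lt_of_le hk with h5 | h5
      · have h6 := step (k1 + 1) (by omega) h4
        rw [show k1 + 1 - 1 = k1 by omega] at h6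
        rw [← h5]
        exact h6
      · exact h4 k h5
  have hall : ∀ k, 2 ≤ k → T (T c) k = K * r ^ k * c k :=
    all (max N 2) 2 le_rfl (by omega)
  -- step two
  have hTpos : ∀ k, 2 ≤ k → 0 < T c k := by
    intro k hk
    apply pos_RG hI
    rw [hall k hk]
    have := hpos k hk
    positivity
  have hTh : ∀ k, 2 ≤ k → Th c k = K * r ^ k := by
    intro k hk
    have h2 := hall k hk
    rw [TT_eq c k hk] at h2
    have h3 := hpos k hk
    have h4 : c k * (Th c k - K * r ^ k) = 0 := by linear_combination h2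
    rcases mul_eq_zero.1 h4 with h5 | h5
    · exact absurd h5 h3.ne'
    · linarith
  -- step three
  have fin : ∀ j M : ℕ, N ≤ M + j → ∀ m, M ≤ m → ka p q r c m = 0 := by
    intro j
    induction j with
    | zero => intro M h2 m hm; exact hka m (by omega)
    | succ j ih =>
      intro M h2 m hm
      have h4 := ih (M + 1) (by omega)
      rcases Nat.eq_or_lt_of_le hm with h5 | h5
      · have h6 := Th_step p q r c (M + 2) (by omega)
          (by rw [show M + 2 - 1 = M + 1 by omega]; exact h4 (M + 1) le_rfl)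
          (h4 (M + 2) (by omega))
        rw [hTh (M + 2) (by omega), hTh (M + 2 + 1) (by omega),
          show M + 2 - 2 = M by omega] at h6
        have h7 : ka p q r c M * T c (M + 2 + 1) = 0 := by
          rw [pow_succ] at h6
          linear_combination -h6
        rw [← h5]
        rcases mul_eq_zero.1 h7 with h8 | h8
        · exact h8
        · exact absurd h8 (hTpos (M + 2 + 1) (by omega)).ne'
      · exact h4 m h5
  exact fun m => fin N 0 (by omega) m (Nat.zero_le m)

end Pool.Agent.Helper18.O3
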