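import Pool.Agent.Helper6.O3.St2

set_option autoImplicit false

/-! Project O3, module TRR (written by helper18). -/

namespace Pool.Agent.Helper18.O3

open Pool.Agent.Helper6.O3 Filter Topology
open Pool.Agent.Helper99.DF (T TL sq)

theorem shR_pair (a : ℕ → ℝ) (t : ℕ) :
    (T^[t] (shR a)) 0 = 0 ∧ (T^[t] (shR a)) 1 = 0 :=
  T_pair (c := shR a) (n := 0) (by simp [shR]) (by simp [shR]) t

theorem shR_iter (a : ℕ → ℝ) (t : ℕ) :
    ∀ k, (T^[t] (shR a)) (k + 2) = (LCR^[t] a) k := by
  induction t with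
  | zero =>
    intro k
    simp [shR]
  | succ t ih =>
    intro k
    rw [Function.iterate_succ_apply', Function.iterate_succ_apply']
    have h1 : T (T^[t] (shR a)) (k + 2) = (T^[t] (shR a)) (k + 2) ^ 2 -
        (T^[t] (shR a)) (k + 1) * (T^[t] (shR a)) (k + 1 + 2) := rfl
    have h2 : LCR (LCR^[t] a) k = (LCR^[t] a) k ^ 2 -
        (if k = 0 then 0 else (LCR^[t] a) (k - 1)) * (LCR^[t] a) (k + 1) := rfl
    rw [h1, h2, ih k, ih (k + 1)]
    congr 2
    rcases Nat.eq_zero_or_pos k with hk | hk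
    · subst hk
      rw [if_pos rfl]
      exact (shR_pair a t).2
    · rw [if_neg hk.ne']
      obtain ⟨j, rfl⟩ : ∃ j, k = j + 1 := ⟨k - 1, by omega⟩
      exact ih j

theorem hTRR : StTRR := by
  intro a
  constructor
  · intro h t n
    rw [← shR_iter a t n]
    exact h t (n + 2)
  · intro h t k
    rcases k with _ | _ | k
    · exact (shR_pair a t).1.ge
    · exact (shR_pair a t).2.ge
    · have := shR_iter a t k
      rw [this]
      exact h t k

end Pool.Agent.Helper18.O3
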